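import Mathlib

/-!
# Dyadic cells of the unit cube
-/

set_option autoImplicit false

namespace Q271.RS

open MeasureTheory Set unitInterval
open scoped ENNReal NNReal

/-- the index of the dyadic interval of length `2 ^ (-a)` that contains `x` (the last interval is
closed) -/
noncomputable def cell1 (a : ℕ) (x : I) : Fin (2 ^ a) :=
  ⟨min ⌊(x:ℝ) * 2 ^ a⌋₊ (2 ^ a - 1), by
    have : 0 < 2 ^ a := Nat.two_pow_pos a
    omega⟩

lemma measurable_cell1 (a : ℕ) : Measurable (cell1 a) := by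
  have h1 : Measurable fun x : I => ⌊(x:ℝ) * 2 ^ a⌋₊ :=
    Nat.measurable_floor.comp (measurable_subtype_coe.mul_const _)
  have h2 : Measurable fun k : ℕ => (⟨min k (2 ^ a - 1), by
    have : 0 < 2 ^ a := Nat.two_pow_pos a
    omega⟩ : Fin (2 ^ a)) := measurable_from_top
  exact h2.comp h1

lemma cell1_mem (a : ℕ) (x : I) :
    ((cell1 a x : ℕ) : ℝ) / 2 ^ a ≤ x ∧ (x:ℝ) ≤ (((cell1 a x : ℕ) : ℝ) + 1) / 2 ^ a := by
  have hpos : (0:ℝ) < 2 ^ a := by positivity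
  have h0 : 0 ≤ (x:ℝ) * 2 ^ a := mul_nonneg x.2.1 hpos.le
  have h1 := Nat.floor_le h0
  have h2 := Nat.lt_floor_add_one ((x:ℝ) * 2 ^ a)
  have hval : (cell1 a x : ℕ) = min ⌊(x:ℝ) * 2 ^ a⌋₊ (2 ^ a - 1) := rfl
  have h3 : 1 ≤ 2 ^ a := Nat.one_le_two_pow
  constructor
  · rw [div_le_iff₀ hpos]
    refine le_trans ?_ h1
    rw [hval]
    exact_mod_cast min_le_left _ _
  · rw [le_div_iff₀ hpos, hval]
    rcases min_cases ⌊(x:ℝ) * 2 ^ a⌋₊ (2 ^ a - 1) with ⟨h4, -⟩ | ⟨h4, -⟩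
    · rw [h4]; exact h2.le
    · rw [h4, Nat.cast_sub h3]
      push_cast
      have := x.2.2
      nlinarith

lemma cell1_eq_of_mem (a : ℕ) (x : I) (z : Fin (2 ^ a)) (h1 : ((z : ℕ) : ℝ) / 2 ^ a < x)
    (h2 : (x:ℝ) < (((z : ℕ) : ℝ) + 1) / 2 ^ a) : cell1 a x = z := by
  have hpos : (0:ℝ) < 2 ^ a := by positivity
  rw [div_lt_iff₀ hpos] at h1
  rw [lt_div_iff₀ hpos] at h2
  have h0 : 0 ≤ (x:ℝ) * 2 ^ a := mul_nonneg x.2.1 hpos.le
  have h3 : ⌊(x:ℝ) * 2 ^ a⌋₊ = z := (Nat.floor_eq_iff h0).2 ⟨h1.le, h2⟩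
  ext
  show min ⌊(x:ℝ) * 2 ^ a⌋₊ (2 ^ a - 1) = z
  rw [h3]
  have := z.2
  omega

lemma volume_cell1 (a : ℕ) (z : Fin (2 ^ a)) :
    volume {x : I | cell1 a x = z} = ((2 ^ a : ℕ) : ℝ≥0∞)⁻¹ := by
  have hpos : (0:ℝ) < 2 ^ a := by positivity
  have hz : ((z : ℕ) : ℝ) + 1 ≤ 2 ^ a := by exact_mod_cast z.2
  have hz0 : (0:ℝ) ≤ ((z : ℕ) : ℝ) := Nat.cast_nonneg _
  let lo : I := ⟨((z : ℕ) : ℝ) / 2 ^ a, by positivity, by rw [div_le_one hpos]; linarith⟩
  let hi : I := ⟨(((z : ℕ) : ℝ) + 1) / 2 ^ a, by positivity, by rw [div_le_one hpos]; exact hz⟩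
  have hlen : (hi : ℝ) - lo = (2 ^ a)⁻¹ := by
    show (((z : ℕ) : ℝ) + 1) / 2 ^ a - ((z : ℕ) : ℝ) / 2 ^ a = (2 ^ a)⁻¹
    field_simp
    ring
  have hval : ENNReal.ofReal ((hi : ℝ) - lo) = ((2 ^ a : ℕ) : ℝ≥0∞)⁻¹ := by
    rw [hlen, ENNReal.ofReal_inv_of_pos hpos]
    congr 1
    rw [← ENNReal.ofReal_natCast]
    push_cast
    rfl
  apply le_antisymm
  · calc volume {x : I | cell1 a x = z} ≤ volume (Icc lo hi) := by
          apply measure_mono
          intro x hx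
          have hx' : cell1 a x = z := hx
          have h := cell1_mem a x
          rw [hx'] at h
          exact ⟨Subtype.coe_le_coe.1 h.1, Subtype.coe_le_coe.1 h.2⟩
      _ = _ := by rw [unitInterval.volume_Icc, hval]
  · calc ((2 ^ a : ℕ) : ℝ≥0∞)⁻¹ = volume (Ioo lo hi) := by rw [unitInterval.volume_Ioo, hval]
      _ ≤ _ := by
          apply measure_mono
          intro x hx
          exact cell1_eq_of_mem a x z (Subtype.coe_lt_coe.2 hx.1) (Subtype.coe_lt_coe.2 hx.2)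

lemma cell1_refine (a b : ℕ) (hab : a ≤ b) (x y : I) (h : cell1 b x = cell1 b y) :
    cell1 a x = cell1 a y := by
  have key : ∀ t : I, (cell1 a t : ℕ) = (cell1 b t : ℕ) / 2 ^ (b - a) := by
    intro t
    have hd : 0 < 2 ^ (b - a) := Nat.two_pow_pos _
    have h1 : ⌊(t:ℝ) * 2 ^ a⌋₊ = ⌊(t:ℝ) * 2 ^ b⌋₊ / 2 ^ (b - a) := by
      rw [← Nat.floor_div_natCast]
      congr 1
      push_cast
      have : (2:ℝ) ^ b = 2 ^ a * 2 ^ (b - a) := by rw [← pow_add, Nat.add_sub_cancel' hab]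
      rw [this]
      field_simp
    have h2 : 2 ^ a - 1 = (2 ^ b - 1) / 2 ^ (b - a) := by
      have h3 : 2 ^ b = 2 ^ a * 2 ^ (b - a) := by rw [← pow_add, Nat.add_sub_cancel' hab]
      have h4 : 1 ≤ 2 ^ a := Nat.one_le_two_pow
      symm
      apply Nat.div_eq_of_lt_le
      · rw [h3, Nat.sub_mul, one_mul]
        omega
      · rw [Nat.sub_add_cancel h4, h3]
        have : 0 < 2 ^ a * 2 ^ (b - a) := by positivity
        omega
    show min ⌊(t:ℝ) * 2 ^ a⌋₊ (2 ^ a - 1) = min ⌊(t:ℝ) * 2 ^ b⌋₊ (2 ^ b - 1) / 2 ^ (b - a)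
    rw [h1, h2]
    have hmono : Monotone fun k : ℕ => k / 2 ^ (b - a) := fun _ _ h => Nat.div_le_div_right h
    exact (Monotone.map_min hmono).symm
  ext
  rw [key x, key y, h]

lemma cell1_dist (a : ℕ) (x y : I) (h : cell1 a x = cell1 a y) :
    |(x:ℝ) - y| ≤ (2 ^ a)⁻¹ := by
  have h1 := cell1_mem a x
  have h2 := cell1_mem a y
  rw [h] at h1
  have hpos : (0:ℝ) < 2 ^ a := by positivity
  have e : (((cell1 a y : ℕ) : ℝ) + 1) / 2 ^ a = ((cell1 a y : ℕ) : ℝ) / 2 ^ a + (2 ^ a)⁻¹ := by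
    field_simp
  rw [abs_le]
  constructor <;> linarith [h1.1, h1.2, h2.1, h2.2]

variable {n : ℕ}

/-- the index of the dyadic box of shape `a` -/
noncomputable def cell (a : Fin n → ℕ) (x : Fin n → I) : (i : Fin n) → Fin (2 ^ a i) :=
  fun i => cell1 (a i) (x i)

lemma measurable_cell (a : Fin n → ℕ) : Measurable (cell a) :=
  measurable_pi_lambda _ fun i => (measurable_cell1 (a i)).comp (measurable_pi_apply i)

/-- the number of boxes -/
def MM (a : Fin n → ℕ) : ℕ := 2 ^ ∑ i, a i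

lemma MM_pos (a : Fin n → ℕ) : 0 < MM a := Nat.two_pow_pos _

lemma card_cells (a : Fin n → ℕ) : Fintype.card ((i : Fin n) → Fin (2 ^ a i)) = MM a := by
  rw [Fintype.card_pi, MM, ← Finset.prod_pow_eq_pow_sum]
  simp

lemma volume_cell (a : Fin n → ℕ) (z : (i : Fin n) → Fin (2 ^ a i)) :
    volume (cell a ⁻¹' {z}) = ((MM a : ℕ) : ℝ≥0∞)⁻¹ := by
  have h1 : cell a ⁻¹' {z} = Set.pi univ fun i => {t : I | cell1 (a i) t = z i} := by
    ext x
    simp only [mem_preimage, mem_singleton_iff, mem_pi, mem_univ, forall_true_left, mem_ofPred_eq]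
    exact funext_iff
  rw [h1, volume_pi_pi]
  simp_rw [volume_cell1]
  rw [MM, ← Finset.prod_pow_eq_pow_sum, Nat.cast_prod]
  rw [ENNReal.prod_inv_distrib]
  intro i _ j _ _
  left
  exact_mod_cast (Nat.two_pow_pos _).ne'

lemma cell_refine (a b : Fin n → ℕ) (hab : a ≤ b) (x y : Fin n → I) (h : cell b x = cell b y) :
    cell a x = cell a y := by
  funext i
  exact cell1_refine _ _ (hab i) _ _ (congrFun h i)

end Q271.RS
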