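import Mathlib

/-!
# Collisions of independent uniformly distributed random points of a finite set
-/

set_option autoImplicit false

namespace Q271.RS

open MeasureTheory ProbabilityTheory Set
open scoped ENNReal NNReal

variable {X : Type} [MeasurableSpace X] (μ : Measure X) [IsProbabilityMeasure μ]
variable {κ : Type} [Fintype κ] [DecidableEq κ] [MeasurableSpace κ] [MeasurableSingletonClass κ]

/-- the product measure -/
noncomputable def PP : Measure (ℕ → X) := Measure.infinitePi (fun _ : ℕ => μ)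

instance : IsProbabilityMeasure (PP μ) := by unfold PP; infer_instance

/-- the event that `ω i` and `ω j` lie in the same class -/
def Coll (c : X → κ) (e : ℕ × ℕ) : Set (ℕ → X) := {ω | c (ω e.1) = c (ω e.2)}

omit [Fintype κ] [DecidableEq κ] in
lemma measurable_class [Countable κ] (c : X → κ) (hc : Measurable c) (i : ℕ) :
    Measurable fun ω : ℕ → X => c (ω i) := hc.comp (measurable_pi_apply i)

lemma measurableSet_coll (c : X → κ) (hc : Measurable c) (e : ℕ × ℕ) :
    MeasurableSet (Coll c e) :=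
  measurableSet_eq_fun (measurable_class c hc e.1) (measurable_class c hc e.2)

lemma prob_eval (c : X → κ) (hc : Measurable c) (i : ℕ) (z : κ) :
    PP μ {ω | c (ω i) = z} = μ (c ⁻¹' {z}) := by
  have h := measurePreserving_eval_infinitePi (fun _ : ℕ => μ) i
  have h2 := h.measure_preimage (hc (measurableSet_singleton z)).nullMeasurableSet
  exact h2

/-- one step: a fresh point is in the class of an old one with probability `1 / #κ` -/
lemma prob_step (c : X → κ) (hc : Measurable c)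
    (hunif : ∀ z, μ (c ⁻¹' {z}) = ((Fintype.card κ : ℕ) : ℝ≥0∞)⁻¹)
    (t : ℕ) (T : Finset ℕ) (ht : t ∉ T) (s : ℕ) (hs : s ∈ T) (B : Set (T → κ)) :
    PP μ {ω | c (ω t) = c (ω s) ∧ (fun i : T => c (ω i)) ∈ B} =
      ((Fintype.card κ : ℕ) : ℝ≥0∞)⁻¹ * PP μ {ω | (fun i : T => c (ω i)) ∈ B} := by
  have hind : iIndepFun (fun (i : ℕ) (ω : ℕ → X) => c (ω i)) (PP μ) :=
    iIndepFun_infinitePi (fun _ => hc)
  have hdisj : Disjoint ({t} : Finset ℕ) T := Finset.disjoint_singleton_left.2 ht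
  have h1 := hind.indepFun_finset {t} T hdisj (fun i => measurable_class c hc i)
  have hmeasT : Measurable fun ω : ℕ → X => (fun i : T => c (ω i)) :=
    measurable_pi_lambda _ fun i => measurable_class c hc i
  have hB : ∀ B' : Set (T → κ), MeasurableSet B' := fun B' => B'.toFinite.measurableSet
  have key : ∀ z : κ, PP μ {ω | c (ω t) = z ∧ (c (ω s) = z ∧ (fun i : T => c (ω i)) ∈ B)} =
      ((Fintype.card κ : ℕ) : ℝ≥0∞)⁻¹ *
        PP μ {ω | c (ω s) = z ∧ (fun i : T => c (ω i)) ∈ B} := by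
    intro z
    have h2 := h1.measure_inter_preimage_eq_mul
      {a : ({t} : Finset ℕ) → κ | a ⟨t, Finset.mem_singleton_self t⟩ = z}
      {a : T → κ | a ⟨s, hs⟩ = z ∧ a ∈ B} (Set.toFinite _).measurableSet (hB _)
    have h3 := prob_eval μ c hc t z
    rw [hunif] at h3
    rw [← h3]
    exact h2
  have hU : {ω : ℕ → X | c (ω t) = c (ω s) ∧ (fun i : T => c (ω i)) ∈ B} =
      ⋃ z : κ, {ω | c (ω t) = z ∧ (c (ω s) = z ∧ (fun i : T => c (ω i)) ∈ B)} := by
    ext ω
    simp only [mem_ofPred_eq, mem_iUnion]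
    constructor
    · rintro ⟨h2, h3⟩
      exact ⟨c (ω t), rfl, h2.symm, h3⟩
    · rintro ⟨z, h2, h3, h4⟩
      exact ⟨h2.trans h3.symm, h4⟩
  have hV : {ω : ℕ → X | (fun i : T => c (ω i)) ∈ B} =
      ⋃ z : κ, {ω | c (ω s) = z ∧ (fun i : T => c (ω i)) ∈ B} := by
    ext ω
    simp only [mem_ofPred_eq, mem_iUnion]
    constructor
    · intro h2
      exact ⟨_, rfl, h2⟩
    · rintro ⟨z, -, h2⟩
      exact h2
  have hmB : MeasurableSet {ω : ℕ → X | (fun i : T => c (ω i)) ∈ B} := hmeasT (hB B)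
  rw [hU, hV, measure_iUnion, measure_iUnion, ← ENNReal.tsum_mul_left]
  · exact tsum_congr key
  · intro z z' hz
    rw [Function.onFun, Set.disjoint_left]
    rintro ω ⟨h2, -⟩ ⟨h3, -⟩
    exact hz (h2.symm.trans h3)
  · intro z
    exact (measurable_class c hc s (measurableSet_singleton z)).inter hmB
  · intro z z' hz
    rw [Function.onFun, Set.disjoint_left]
    rintro ω ⟨h2, -⟩ ⟨h3, -⟩
    exact hz (h2.symm.trans h3)
  · intro z
    exact (measurable_class c hc t (measurableSet_singleton z)).inter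
      ((measurable_class c hc s (measurableSet_singleton z)).inter hmB)

lemma prob_coll (c : X → κ) (hc : Measurable c)
    (hunif : ∀ z, μ (c ⁻¹' {z}) = ((Fintype.card κ : ℕ) : ℝ≥0∞)⁻¹) (e : ℕ × ℕ) (he : e.1 < e.2) :
    (PP μ).real (Coll c e) = ((Fintype.card κ : ℕ) : ℝ)⁻¹ := by
  have h := prob_step μ c hc hunif e.1 {e.2} (by simp; omega) e.2 (by simp) Set.univ
  simp only [mem_univ, and_true, ofPred_true, measure_univ, mul_one] at h
  rw [Measure.real, show Coll c e = {ω | c (ω e.1) = c (ω e.2)} from rfl, h]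
  simp

lemma prob_coll_inter (c : X → κ) (hc : Measurable c)
    (hunif : ∀ z, μ (c ⁻¹' {z}) = ((Fintype.card κ : ℕ) : ℝ≥0∞)⁻¹) (e e' : ℕ × ℕ)
    (he : e.1 < e.2) (he' : e'.1 < e'.2) (hne : e ≠ e') :
    (PP μ).real (Coll c e ∩ Coll c e') = ((Fintype.card κ : ℕ) : ℝ)⁻¹ * ((Fintype.card κ : ℕ) : ℝ)⁻¹ := by
  -- a fresh index
  obtain ⟨t, s, hts, hst, ht1, ht2⟩ : ∃ t s : ℕ, t ≠ s ∧
      (Coll c e = {ω | c (ω t) = c (ω s)}) ∧ t ≠ e'.1 ∧ t ≠ e'.2 := by
    by_cases h1 : e.1 = e'.1 ∨ e.1 = e'.2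
    · refine ⟨e.2, e.1, by omega, ?_, ?_, ?_⟩
      · ext ω
        exact eq_comm
      · intro h2
        rcases h1 with h1 | h1
        · omega
        · omega
      · intro h2
        rcases h1 with h1 | h1
        · exact hne (Prod.ext h1 h2)
        · omega
    · push Not at h1
      exact ⟨e.1, e.2, by omega, rfl, h1.1, h1.2⟩
  have h := prob_step μ c hc hunif t {s, e'.1, e'.2} (by simp; omega) s (by simp)
    {a | a ⟨e'.1, by simp⟩ = a ⟨e'.2, by simp⟩}
  have h2 := prob_coll μ c hc hunif e' he'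
  rw [Measure.real] at h2 ⊢
  rw [hst, show ({ω : ℕ → X | c (ω t) = c (ω s)} ∩ Coll c e') = {ω | c (ω t) = c (ω s) ∧
    (fun i : ({s, e'.1, e'.2} : Finset ℕ) => c (ω i)) ∈
      {a : ({s, e'.1, e'.2} : Finset ℕ) → κ | a ⟨e'.1, by simp⟩ = a ⟨e'.2, by simp⟩}} from rfl, h,
    ENNReal.toReal_mul]
  rw [show {ω : ℕ → X | (fun i : ({s, e'.1, e'.2} : Finset ℕ) => c (ω i)) ∈
      {a : ({s, e'.1, e'.2} : Finset ℕ) → κ | a ⟨e'.1, by simp⟩ = a ⟨e'.2, by simp⟩}} =
      Coll c e' from rfl, h2]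
  simp

open Classical in
/-- the number of collisions -/
noncomputable def num (c : X → κ) (E : Finset (ℕ × ℕ)) (ω : ℕ → X) : ℝ :=
  ∑ e ∈ E, (Coll c e).indicator (fun _ => (1:ℝ)) ω

lemma second_moment (c : X → κ) (hc : Measurable c)
    (hunif : ∀ z, μ (c ⁻¹' {z}) = ((Fintype.card κ : ℕ) : ℝ≥0∞)⁻¹) (E : Finset (ℕ × ℕ))
    (hE : ∀ e ∈ E, e.1 < e.2) :
    ∫ ω, (num c E ω - E.card * ((Fintype.card κ : ℕ) : ℝ)⁻¹) ^ 2 ∂(PP μ) ≤
      E.card * ((Fintype.card κ : ℕ) : ℝ)⁻¹ := by
  set m : ℝ := ((Fintype.card κ : ℕ) : ℝ)⁻¹ with hm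
  set f : ℕ × ℕ → (ℕ → X) → ℝ := fun e ω => (Coll c e).indicator (fun _ => (1:ℝ)) ω - m with hf
  have hms : ∀ e, MeasurableSet (Coll c e) := measurableSet_coll c hc
  have hfi : ∀ e, Integrable (fun ω => (Coll c e).indicator (fun _ => (1:ℝ)) ω) (PP μ) := fun e =>
    (integrable_const (1:ℝ)).indicator (hms e)
  have hprod : ∀ e e', (fun ω => f e ω * f e' ω) = fun ω =>
      (Coll c e ∩ Coll c e').indicator (fun _ => (1:ℝ)) ω -
        m * (Coll c e).indicator (fun _ => (1:ℝ)) ω -
        m * (Coll c e').indicator (fun _ => (1:ℝ)) ω + m * m := by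
    intro e e'
    funext ω
    have h1 : (Coll c e ∩ Coll c e').indicator (fun _ => (1:ℝ)) ω =
        (Coll c e).indicator (fun _ => (1:ℝ)) ω * (Coll c e').indicator (fun _ => (1:ℝ)) ω := by
      by_cases h2 : ω ∈ Coll c e <;> by_cases h3 : ω ∈ Coll c e' <;> simp [h2, h3]
    rw [h1]
    simp only [hf]
    ring
  have hint : ∀ e e', Integrable (fun ω => f e ω * f e' ω) (PP μ) := by
    intro e e'
    rw [hprod]
    exact ((((integrable_const (1:ℝ)).indicator ((hms e).inter (hms e'))).sub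
      ((hfi e).const_mul m)).sub ((hfi e').const_mul m)).add (integrable_const _)
  have hval : ∀ e ∈ E, ∀ e' ∈ E, ∫ ω, f e ω * f e' ω ∂(PP μ) ≤ if e = e' then m else 0 := by
    intro e he e' he'
    rw [hprod, integral_add, integral_sub, integral_sub, integral_const_mul, integral_const_mul]
    · rw [integral_indicator_const _ ((hms e).inter (hms e')), integral_indicator_const _ (hms e),
        integral_indicator_const _ (hms e'), prob_coll μ c hc hunif e (hE e he),
        prob_coll μ c hc hunif e' (hE e' he'), integral_const]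
      simp only [smul_eq_mul, mul_one, probReal_univ, one_mul]
      rw [← hm]
      split_ifs with h
      · subst h
        rw [inter_self, prob_coll μ c hc hunif e (hE e he), ← hm]
        nlinarith [mul_self_nonneg m]
      · rw [prob_coll_inter μ c hc hunif e e' (hE e he) (hE e' he') h, ← hm]
        linarith
    · exact (integrable_const (1:ℝ)).indicator ((hms e).inter (hms e'))
    · exact (hfi e).const_mul m
    · exact ((integrable_const (1:ℝ)).indicator ((hms e).inter (hms e'))).sub ((hfi e).const_mul m)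
    · exact (hfi e').const_mul m
    · exact (((integrable_const (1:ℝ)).indicator ((hms e).inter (hms e'))).sub
        ((hfi e).const_mul m)).sub ((hfi e').const_mul m)
    · exact integrable_const _
  have hsq : (fun ω => (num c E ω - E.card * m) ^ 2) = fun ω => ∑ e ∈ E, ∑ e' ∈ E, f e ω * f e' ω := by
    funext ω
    have h1 : num c E ω - E.card * m = ∑ e ∈ E, f e ω := by
      rw [num, hf, Finset.sum_sub_distrib, Finset.sum_const, nsmul_eq_mul]
    rw [h1, sq, Finset.sum_mul_sum]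
  rw [hsq, integral_finset_sum _ (fun e _ => integrable_finset_sum _ fun e' _ => hint e e')]
  calc ∑ e ∈ E, ∫ ω, ∑ e' ∈ E, f e ω * f e' ω ∂(PP μ)
      = ∑ e ∈ E, ∑ e' ∈ E, ∫ ω, f e ω * f e' ω ∂(PP μ) :=
        Finset.sum_congr rfl fun e _ => integral_finset_sum _ fun e' _ => hint e e'
    _ ≤ ∑ e ∈ E, ∑ e' ∈ E, if e = e' then m else 0 :=
        Finset.sum_le_sum fun e he => Finset.sum_le_sum fun e' he' => hval e he e' he'
    _ = ∑ e ∈ E, m := by
        apply Finset.sum_congr rfl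
        intro e he
        rw [Finset.sum_ite_eq, if_pos he]
    _ = _ := by rw [Finset.sum_const, nsmul_eq_mul]

/-- **Chebyshev.** -/
lemma prob_num_ge (c : X → κ) (hc : Measurable c) [Nonempty κ]
    (hunif : ∀ z, μ (c ⁻¹' {z}) = ((Fintype.card κ : ℕ) : ℝ≥0∞)⁻¹) (E : Finset (ℕ × ℕ))
    (hE : ∀ e ∈ E, e.1 < e.2) (hne : E.Nonempty) (ε : ℝ) (hε : 0 < ε) :
    PP μ {ω | (1 + ε) * (E.card * ((Fintype.card κ : ℕ) : ℝ)⁻¹) ≤ num c E ω} ≤
      ENNReal.ofReal ((Fintype.card κ : ℕ) / (ε ^ 2 * E.card)) := by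
  set m : ℝ := ((Fintype.card κ : ℕ) : ℝ)⁻¹ with hm
  have hcard : (0:ℝ) < (Fintype.card κ : ℕ) := by exact_mod_cast Fintype.card_pos
  have hm0 : 0 < m := inv_pos.2 hcard
  have hN : (0:ℝ) < E.card := by exact_mod_cast hne.card_pos
  set a : ℝ := E.card * m with ha
  have ha0 : 0 < a := by positivity
  have hms : ∀ e, MeasurableSet (Coll c e) := measurableSet_coll c hc
  have hmeas : Measurable (num c E) := by
    unfold num
    exact Finset.measurable_sum _ fun e _ => measurable_const.indicator (hms e)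
  have hint : Integrable (fun ω => (num c E ω - a) ^ 2) (PP μ) := by
    apply Integrable.of_bound ((hmeas.sub_const a).pow_const 2).aestronglyMeasurable
      ((E.card + a) ^ 2)
    refine Filter.Eventually.of_forall fun ω => ?_
    rw [Real.norm_eq_abs, abs_of_nonneg (sq_nonneg _)]
    apply sq_le_sq'
    · have h1 : 0 ≤ num c E ω := Finset.sum_nonneg fun e _ => indicator_nonneg (by simp) _
      linarith
    · have h1 : num c E ω ≤ E.card := by
        unfold num
        calc ∑ e ∈ E, (Coll c e).indicator (fun _ => (1:ℝ)) ω ≤ ∑ e ∈ E, (1:ℝ) :=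
              Finset.sum_le_sum fun e _ => indicator_le_self' (by simp) _
          _ = E.card := by simp
      linarith
  have h1 := mul_meas_ge_le_integral_of_nonneg (μ := PP μ) (f := fun ω => (num c E ω - a) ^ 2)
    (Filter.Eventually.of_forall fun ω => sq_nonneg _) hint ((ε * a) ^ 2)
  have h2 : (PP μ).real {ω | (1 + ε) * a ≤ num c E ω} ≤
      (PP μ).real {ω | (ε * a) ^ 2 ≤ (num c E ω - a) ^ 2} := by
    apply measureReal_mono _ (measure_ne_top _ _)
    intro ω hω
    have h3 : (1 + ε) * a ≤ num c E ω := hω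
    show (ε * a) ^ 2 ≤ (num c E ω - a) ^ 2
    apply pow_le_pow_left₀ (by positivity)
    linarith
  have h4 := second_moment μ c hc hunif E hE
  rw [← hm, ← ha] at h4
  have h5 : (PP μ).real {ω | (1 + ε) * a ≤ num c E ω} ≤ a / (ε * a) ^ 2 := by
    rw [le_div_iff₀ (by positivity), mul_comm]
    refine (mul_le_mul_of_nonneg_left h2 (by positivity)).trans (h1.trans h4)
  have h6 : a / (ε * a) ^ 2 = (Fintype.card κ : ℕ) / (ε ^ 2 * E.card) := by
    rw [ha, hm]
    field_simp
  rw [← h6, ← ofReal_measureReal (measure_ne_top _ _)]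
  exact ENNReal.ofReal_le_ofReal h5

end Q271.RS
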