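import Pool.Agent.Q271.RS.Good

/-!
# The deterministic part
-/

set_option autoImplicit false

namespace Q271.RS

open MeasureTheory ProbabilityTheory Set Filter unitInterval Topology
open scoped ENNReal NNReal

variable {n : ℕ}

section
variable (ω : ℕ → Fin n → I) (sh : ℕ → Fin n → ℕ)

/-- the box of level `k` around `ω i` -/
def C (k i : ℕ) : Set (Fin n → I) := {x | cell (sh k) x = cell (sh k) (ω i)}

lemma measurableSet_C (k i : ℕ) : MeasurableSet (C ω sh k i) :=
  measurable_cell (sh k) (measurableSet_singleton _)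

lemma volume_C (k i : ℕ) : (volume : Measure (Fin n → I)).real (C ω sh k i) =
    ((MM (sh k) : ℕ) : ℝ)⁻¹ := by
  have h : volume (C ω sh k i) = _ := volume_cell (sh k) (cell (sh k) (ω i))
  rw [Measure.real, h]
  simp

/-- the number of boxes of level `k` that contain `x` -/
noncomputable def f (k : ℕ) (x : Fin n → I) : ℝ :=
  ∑ i ∈ B k, (C ω sh k i).indicator (fun _ => (1:ℝ)) x

lemma f_nonneg (k : ℕ) (x : Fin n → I) : 0 ≤ f ω sh k x :=
  Finset.sum_nonneg fun _ _ => indicator_nonneg (by simp) _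

lemma integrable_ind (k i : ℕ) : Integrable (fun x => (C ω sh k i).indicator (fun _ => (1:ℝ)) x) :=
  (integrable_const (1:ℝ)).indicator (measurableSet_C ω sh k i)

lemma integrable_f (k : ℕ) : Integrable (f ω sh k) :=
  integrable_finsetSum _ fun i _ => integrable_ind ω sh k i

/-- the expected number -/
noncomputable def mk (k : ℕ) : ℝ := 2 ^ k * ((MM (sh k) : ℕ) : ℝ)⁻¹

lemma mk_pos (k : ℕ) : 0 < mk sh k := by
  have : (0:ℝ) < ((MM (sh k) : ℕ) : ℝ) := by exact_mod_cast MM_pos _
  unfold mk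
  positivity

lemma integral_f (k : ℕ) : ∫ x, f ω sh k x = mk sh k := by
  unfold f
  rw [integral_finsetSum _ fun i _ => integrable_ind ω sh k i]
  have h : ∀ i ∈ B k, ∫ x, (C ω sh k i).indicator (fun _ => (1:ℝ)) x =
      ((MM (sh k) : ℕ) : ℝ)⁻¹ := by
    intro i _
    rw [integral_indicator_const _ (measurableSet_C ω sh k i), volume_C]
    simp
  rw [Finset.sum_congr rfl h, Finset.sum_const, card_B, nsmul_eq_mul, mk]
  push_cast
  rfl

lemma ff_eq (k l : ℕ) : (fun x => f ω sh k x * f ω sh l x) = fun x =>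
    ∑ i ∈ B k, ∑ j ∈ B l, (C ω sh k i ∩ C ω sh l j).indicator (fun _ => (1:ℝ)) x := by
  funext x
  rw [f, f, Finset.sum_mul_sum]
  refine Finset.sum_congr rfl fun i _ => Finset.sum_congr rfl fun j _ => ?_
  by_cases h2 : x ∈ C ω sh k i <;> by_cases h3 : x ∈ C ω sh l j <;> simp [h2, h3]

lemma integrable_inter (k l i j : ℕ) :
    Integrable (fun x => (C ω sh k i ∩ C ω sh l j).indicator (fun _ => (1:ℝ)) x) :=
  (integrable_const (1:ℝ)).indicator ((measurableSet_C ω sh k i).inter (measurableSet_C ω sh l j))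

lemma integrable_ff (k l : ℕ) : Integrable fun x => f ω sh k x * f ω sh l x := by
  rw [ff_eq]
  exact integrable_finsetSum _ fun i _ => integrable_finsetSum _ fun j _ => integrable_inter ω sh k l i j

lemma integral_ff (k l : ℕ) : ∫ x, f ω sh k x * f ω sh l x =
    ∑ i ∈ B k, ∑ j ∈ B l, (volume : Measure (Fin n → I)).real (C ω sh k i ∩ C ω sh l j) := by
  rw [ff_eq, integral_finsetSum _ fun i _ => integrable_finsetSum _ fun j _ =>
    integrable_inter ω sh k l i j]
  refine Finset.sum_congr rfl fun i _ => ?_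
  rw [integral_finsetSum _ fun j _ => integrable_inter ω sh k l i j]
  refine Finset.sum_congr rfl fun j _ => ?_
  rw [integral_indicator_const _ ((measurableSet_C ω sh k i).inter (measurableSet_C ω sh l j))]
  simp

/-- the intersection of two boxes -/
lemma volume_inter_le (hsh : Monotone sh) (k l : ℕ) (hkl : k ≤ l) (i j : ℕ) :
    (volume : Measure (Fin n → I)).real (C ω sh k i ∩ C ω sh l j) ≤
      (Coll (cell (sh k)) (i, j)).indicator (fun _ => (1:ℝ)) ω * ((MM (sh l) : ℕ) : ℝ)⁻¹ := by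
  by_cases h : ω ∈ Coll (cell (sh k)) (i, j)
  · rw [indicator_of_mem h, one_mul, ← volume_C ω sh l j]
    exact measureReal_mono inter_subset_right (measure_ne_top _ _)
  · have he : C ω sh k i ∩ C ω sh l j = ∅ := by
      rw [eq_empty_iff_forall_notMem]
      rintro x ⟨h1, h2⟩
      apply h
      have h3 := cell_refine (sh k) (sh l) (hsh hkl) x (ω j) h2
      exact (show cell (sh k) x = cell (sh k) (ω i) from h1).symm.trans h3
    rw [he, measureReal_empty, indicator_of_notMem h, zero_mul]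

lemma integral_ff_lt (hsh : Monotone sh) (k l : ℕ) (hkl : k < l) :
    ∫ x, f ω sh k x * f ω sh l x ≤ num (cell (sh k)) (E k l) ω * ((MM (sh l) : ℕ) : ℝ)⁻¹ := by
  have h1 : E k l = B k ×ˢ B l := by
    apply Finset.filter_true_of_mem
    intro e he
    rw [Finset.mem_product, B, B, Finset.mem_Ico, Finset.mem_Ico] at he
    have : 2 ^ (k + 1) ≤ 2 ^ l := Nat.pow_le_pow_right (by norm_num) hkl
    omega
  rw [integral_ff, num, h1, Finset.sum_product, Finset.sum_mul]
  refine Finset.sum_le_sum fun i _ => ?_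
  rw [Finset.sum_mul]
  exact Finset.sum_le_sum fun j _ => volume_inter_le ω sh hsh k l hkl.le i j

lemma integral_ff_self (hsh : Monotone sh) (k : ℕ) :
    ∫ x, f ω sh k x * f ω sh k x ≤
      (2 ^ k + 2 * num (cell (sh k)) (E k k) ω) * ((MM (sh k) : ℕ) : ℝ)⁻¹ := by
  set A : ℕ × ℕ → ℝ := fun e => (Coll (cell (sh k)) e).indicator (fun _ => (1:ℝ)) ω with hA
  have hM : (0:ℝ) ≤ ((MM (sh k) : ℕ) : ℝ)⁻¹ := by positivity
  have h1 : ∑ e ∈ B k ×ˢ B k, A e = 2 ^ k + 2 * num (cell (sh k)) (E k k) ω := by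
    have hsymm : ∀ i j, A (i, j) = A (j, i) := by
      intro i j
      have : Coll (cell (sh k)) (i, j) = Coll (cell (sh k)) (j, i) := by
        ext ω'
        exact eq_comm
      simp only [hA, this]
    have hdiag : ∀ i, A (i, i) = 1 := by
      intro i
      simp only [hA]
      rw [indicator_of_mem]
      exact rfl
    have e1 : ∑ e ∈ B k ×ˢ B k, A e = ∑ e ∈ (B k ×ˢ B k).filter (fun e => e.1 < e.2), A e +
        ∑ e ∈ (B k ×ˢ B k).filter (fun e => ¬ e.1 < e.2), A e :=
      (Finset.sum_filter_add_sum_filter_not _ _ _).symm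
    have e2 : ∑ e ∈ (B k ×ˢ B k).filter (fun e => ¬ e.1 < e.2), A e =
        ∑ e ∈ ((B k ×ˢ B k).filter (fun e => ¬ e.1 < e.2)).filter (fun e => e.2 < e.1), A e +
        ∑ e ∈ ((B k ×ˢ B k).filter (fun e => ¬ e.1 < e.2)).filter (fun e => ¬ e.2 < e.1), A e :=
      (Finset.sum_filter_add_sum_filter_not _ _ _).symm
    have e3 : ∑ e ∈ ((B k ×ˢ B k).filter (fun e => ¬ e.1 < e.2)).filter (fun e => e.2 < e.1), A e =
        ∑ e ∈ (B k ×ˢ B k).filter (fun e => e.1 < e.2), A e := by
      refine Finset.sum_bij' (fun e _ => (e.2, e.1)) (fun e _ => (e.2, e.1)) ?_ ?_ ?_ ?_ ?_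
      · intro e he
        simp only [Finset.mem_filter, Finset.mem_product] at he ⊢
        exact ⟨⟨he.1.1.2, he.1.1.1⟩, he.2⟩
      · intro e he
        simp only [Finset.mem_filter, Finset.mem_product] at he ⊢
        exact ⟨⟨⟨he.1.2, he.1.1⟩, by omega⟩, he.2⟩
      · intro e _; rfl
      · intro e _; rfl
      · intro e _
        exact hsymm e.1 e.2
    have e4 : ∑ e ∈ ((B k ×ˢ B k).filter (fun e => ¬ e.1 < e.2)).filter (fun e => ¬ e.2 < e.1),
        A e = 2 ^ k := by
      have e5 : ((B k ×ˢ B k).filter (fun e => ¬ e.1 < e.2)).filter (fun e => ¬ e.2 < e.1) =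
          (B k).image fun i => (i, i) := by
        ext ⟨i, j⟩
        simp only [Finset.mem_filter, Finset.mem_product, Finset.mem_image, Prod.mk.injEq]
        constructor
        · rintro ⟨⟨⟨h1, -⟩, h2⟩, h3⟩
          exact ⟨i, h1, rfl, by omega⟩
        · rintro ⟨i', h1, rfl, rfl⟩
          exact ⟨⟨⟨h1, h1⟩, by omega⟩, by omega⟩
      rw [e5, Finset.sum_image (by intro i _ j _ h; exact (Prod.mk.inj h).1)]
      rw [Finset.sum_congr rfl fun i _ => hdiag i, Finset.sum_const, card_B, nsmul_eq_mul]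
      push_cast
      ring
    rw [e1, e2, e3, e4]
    have e6 : num (cell (sh k)) (E k k) ω = ∑ e ∈ (B k ×ˢ B k).filter (fun e => e.1 < e.2), A e := rfl
    rw [e6]
    ring
  rw [integral_ff, ← h1, Finset.sum_product, Finset.sum_mul]
  refine Finset.sum_le_sum fun i _ => ?_
  rw [Finset.sum_mul]
  exact Finset.sum_le_sum fun j _ => volume_inter_le ω sh hsh k k le_rfl i j

open Classical in
/-- the weights -/
noncomputable def wt (k : ℕ) : ℝ := if sh k ∈ S n k then min 1 (mk sh k)⁻¹ else 0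

open Classical in
/-- the weighted expectation -/
noncomputable def vt (k : ℕ) : ℝ := if sh k ∈ S n k then min 1 (mk sh k) else 0

lemma wt_nonneg (k : ℕ) : 0 ≤ wt sh k := by
  unfold wt
  have := mk_pos sh k
  split_ifs <;> positivity

lemma vt_nonneg (k : ℕ) : 0 ≤ vt sh k := by
  unfold vt
  have := mk_pos sh k
  split_ifs <;> positivity

lemma wt_mul (k : ℕ) : wt sh k * mk sh k = vt sh k := by
  unfold wt vt
  have h := mk_pos sh k
  split_ifs
  · rw [min_mul_of_nonneg _ _ h.le, one_mul, inv_mul_cancel₀ h.ne', min_comm]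
  · simp

lemma wt_sq (k : ℕ) : wt sh k * wt sh k * (mk sh k + 4 * mk sh k ^ 2) ≤ 5 * vt sh k := by
  have h := mk_pos sh k
  have h1 := wt_mul sh k
  have hw := wt_nonneg sh k
  have hv := vt_nonneg sh k
  have hw1 : wt sh k ≤ 1 := by
    unfold wt
    split_ifs
    · exact min_le_left _ _
    · norm_num
  have hv1 : vt sh k ≤ 1 := by
    unfold vt
    split_ifs
    · exact min_le_left _ _
    · norm_num
  have e : wt sh k * wt sh k * (mk sh k + 4 * mk sh k ^ 2) =
      wt sh k * (wt sh k * mk sh k) + 4 * (wt sh k * mk sh k) ^ 2 := by ring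
  rw [e, h1]
  nlinarith

/-- the weighted sum -/
noncomputable def FF (T : Finset ℕ) (x : Fin n → I) : ℝ := ∑ k ∈ T, wt sh k * f ω sh k x

lemma integral_FF_sq (hsh : Monotone sh) (T : Finset ℕ) (ε : ℝ) (hε : 0 ≤ ε)
    (h1 : ∀ k ∈ T, ∀ l ∈ T, k < l → sh k ∈ S n k →
      num (cell (sh k)) (E k l) ω ≤ (1 + ε) * ((E k l).card * ((MM (sh k) : ℕ) : ℝ)⁻¹))
    (h2 : ∀ k ∈ T, sh k ∈ S n k →
      num (cell (sh k)) (E k k) ω ≤ 2 * ((E k k).card * ((MM (sh k) : ℕ) : ℝ)⁻¹)) :
    ∫ x, (FF ω sh T x - ∑ k ∈ T, vt sh k) ^ 2 ≤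
      ε * (∑ k ∈ T, vt sh k) ^ 2 + 5 * ∑ k ∈ T, vt sh k := by
  set V := ∑ k ∈ T, vt sh k with hV
  have hMp : ∀ k, (0:ℝ) < ((MM (sh k) : ℕ) : ℝ) := fun k => by exact_mod_cast MM_pos _
  have hint1 : Integrable (FF ω sh T) := by
    unfold FF
    exact integrable_finsetSum _ fun k _ => (integrable_f ω sh k).const_mul _
  have hEq : (fun x => FF ω sh T x * FF ω sh T x) = fun x =>
      ∑ k ∈ T, ∑ l ∈ T, (wt sh k * wt sh l) * (f ω sh k x * f ω sh l x) := by
    funext x
    rw [FF, Finset.sum_mul_sum]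
    exact Finset.sum_congr rfl fun k _ => Finset.sum_congr rfl fun l _ => by ring
  have hint3 : ∀ k l, Integrable fun x => (wt sh k * wt sh l) * (f ω sh k x * f ω sh l x) :=
    fun k l => (integrable_ff ω sh k l).const_mul _
  have hint2 : Integrable fun x => FF ω sh T x * FF ω sh T x := by
    rw [hEq]
    exact integrable_finsetSum _ fun k _ => integrable_finsetSum _ fun l _ => hint3 k l
  have hFV : ∫ x, FF ω sh T x = V := by
    unfold FF
    rw [integral_finsetSum _ fun k _ => (integrable_f ω sh k).const_mul _, hV]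
    refine Finset.sum_congr rfl fun k _ => ?_
    rw [integral_const_mul, integral_f, wt_mul]
  -- the bound for the products
  have hpair : ∀ k ∈ T, ∀ l ∈ T, k < l →
      wt sh k * wt sh l * ∫ x, f ω sh k x * f ω sh l x ≤ (1 + ε) * (vt sh k * vt sh l) := by
    intro k hk l hl hkl
    by_cases hS : sh k ∈ S n k
    · have h3 := integral_ff_lt ω sh hsh k l hkl
      have h4 := h1 k hk l hl hkl hS
      have h5 : ((E k l).card : ℝ) ≤ 2 ^ k * 2 ^ l := by exact_mod_cast card_E_le k l
      have h6 : ∫ x, f ω sh k x * f ω sh l x ≤ (1 + ε) * (mk sh k * mk sh l) := by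
        calc ∫ x, f ω sh k x * f ω sh l x
            ≤ ((1 + ε) * ((2 ^ k * 2 ^ l) * ((MM (sh k) : ℕ) : ℝ)⁻¹)) *
              ((MM (sh l) : ℕ) : ℝ)⁻¹ := by
              refine h3.trans (mul_le_mul_of_nonneg_right (h4.trans ?_)
                (inv_nonneg.2 (hMp l).le))
              gcongr
          _ = _ := by unfold mk; ring
      calc wt sh k * wt sh l * ∫ x, f ω sh k x * f ω sh l x
          ≤ wt sh k * wt sh l * ((1 + ε) * (mk sh k * mk sh l)) :=
            mul_le_mul_of_nonneg_left h6 (mul_nonneg (wt_nonneg sh k) (wt_nonneg sh l))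
        _ = (1 + ε) * ((wt sh k * mk sh k) * (wt sh l * mk sh l)) := by ring
        _ = _ := by rw [wt_mul, wt_mul]
    · have h3 : wt sh k = 0 := by unfold wt; rw [if_neg hS]
      have h4 : vt sh k = 0 := by unfold vt; rw [if_neg hS]
      rw [h3, h4]
      simp
  have hdiag : ∀ k ∈ T, wt sh k * wt sh k * ∫ x, f ω sh k x * f ω sh k x ≤ 5 * vt sh k := by
    intro k hk
    by_cases hS : sh k ∈ S n k
    · have h3 := integral_ff_self ω sh hsh k
      have h4 := h2 k hk hS
      have h5 : ((E k k).card : ℝ) ≤ 2 ^ k * 2 ^ k := by exact_mod_cast card_E_le k k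
      have h6 : ∫ x, f ω sh k x * f ω sh k x ≤ mk sh k + 4 * mk sh k ^ 2 := by
        calc ∫ x, f ω sh k x * f ω sh k x
            ≤ (2 ^ k + 2 * (2 * ((2 ^ k * 2 ^ k) * ((MM (sh k) : ℕ) : ℝ)⁻¹))) *
              ((MM (sh k) : ℕ) : ℝ)⁻¹ := by
              refine h3.trans (mul_le_mul_of_nonneg_right ?_ (inv_nonneg.2 (hMp k).le))
              have h7 : 2 * (((E k k).card : ℝ) * ((MM (sh k) : ℕ) : ℝ)⁻¹) ≤
                  2 * ((2 ^ k * 2 ^ k) * ((MM (sh k) : ℕ) : ℝ)⁻¹) := by
                gcongr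
              linarith
          _ = _ := by unfold mk; ring
      exact (mul_le_mul_of_nonneg_left h6 (mul_nonneg (wt_nonneg sh k) (wt_nonneg sh k))).trans
        (wt_sq sh k)
    · have h3 : wt sh k = 0 := by unfold wt; rw [if_neg hS]
      rw [h3]
      have := vt_nonneg sh k
      simp only [zero_mul]
      linarith
  have hall : ∀ k ∈ T, ∀ l ∈ T, wt sh k * wt sh l * ∫ x, f ω sh k x * f ω sh l x ≤
      (1 + ε) * (vt sh k * vt sh l) + if k = l then 5 * vt sh k else 0 := by
    intro k hk l hl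
    have hvv : 0 ≤ (1 + ε) * (vt sh k * vt sh l) :=
      mul_nonneg (by linarith) (mul_nonneg (vt_nonneg sh k) (vt_nonneg sh l))
    rcases lt_trichotomy k l with h | h | h
    · rw [if_neg h.ne, add_zero]
      exact hpair k hk l hl h
    · subst h
      rw [if_pos rfl]
      linarith [hdiag k hk]
    · rw [if_neg h.ne', add_zero]
      have h3 := hpair l hl k hk h
      have e : (fun x => f ω sh k x * f ω sh l x) = fun x => f ω sh l x * f ω sh k x := by
        funext x; ring
      rw [e, mul_comm (wt sh k), mul_comm (vt sh k)]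
      exact h3
  have hsq : ∫ x, FF ω sh T x * FF ω sh T x ≤ (1 + ε) * V ^ 2 + 5 * V := by
    rw [hEq, integral_finsetSum _ fun k _ => integrable_finsetSum _ fun l _ => hint3 k l]
    calc ∑ k ∈ T, ∫ x, ∑ l ∈ T, (wt sh k * wt sh l) * (f ω sh k x * f ω sh l x)
        = ∑ k ∈ T, ∑ l ∈ T, wt sh k * wt sh l * ∫ x, f ω sh k x * f ω sh l x := by
          refine Finset.sum_congr rfl fun k _ => ?_
          rw [integral_finsetSum _ fun l _ => hint3 k l]
          exact Finset.sum_congr rfl fun l _ => integral_const_mul _ _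
      _ ≤ ∑ k ∈ T, ∑ l ∈ T, ((1 + ε) * (vt sh k * vt sh l) + if k = l then 5 * vt sh k else 0) :=
          Finset.sum_le_sum fun k hk => Finset.sum_le_sum fun l hl => hall k hk l hl
      _ = (1 + ε) * V ^ 2 + 5 * V := by
          have e1 : ∀ k ∈ T, ∑ l ∈ T, ((1 + ε) * (vt sh k * vt sh l) +
              if k = l then 5 * vt sh k else 0) = (1 + ε) * (vt sh k * V) + 5 * vt sh k := by
            intro k hk
            rw [Finset.sum_add_distrib, Finset.sum_ite_eq, if_pos hk, ← Finset.mul_sum,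
              ← Finset.mul_sum]
          rw [Finset.sum_congr rfl e1, Finset.sum_add_distrib, ← Finset.mul_sum, ← Finset.sum_mul,
            ← Finset.mul_sum, ← hV]
          ring
  have hexp : (fun x => (FF ω sh T x - V) ^ 2) = fun x =>
      FF ω sh T x * FF ω sh T x - (2 * V) * FF ω sh T x + V ^ 2 := by
    funext x; ring
  have hint4 : Integrable fun x => FF ω sh T x * FF ω sh T x - (2 * V) * FF ω sh T x :=
    hint2.sub (hint1.const_mul _)
  rw [hexp, integral_add hint4 (integrable_const _),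
    integral_sub hint2 (hint1.const_mul _), integral_const_mul, hFV, integral_const]
  simp only [probReal_univ, smul_eq_mul, one_mul]
  nlinarith

lemma volume_le_of_zero (hsh : Monotone sh) (T : Finset ℕ) (ε : ℝ) (hε : 0 ≤ ε)
    (h1 : ∀ k ∈ T, ∀ l ∈ T, k < l → sh k ∈ S n k →
      num (cell (sh k)) (E k l) ω ≤ (1 + ε) * ((E k l).card * ((MM (sh k) : ℕ) : ℝ)⁻¹))
    (h2 : ∀ k ∈ T, sh k ∈ S n k →
      num (cell (sh k)) (E k k) ω ≤ 2 * ((E k k).card * ((MM (sh k) : ℕ) : ℝ)⁻¹))
    (hV : 0 < ∑ k ∈ T, vt sh k) (A : Set (Fin n → I))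
    (hA : ∀ x ∈ A, ∀ k ∈ T, f ω sh k x = 0) :
    (volume : Measure (Fin n → I)).real A ≤ ε + 5 / ∑ k ∈ T, vt sh k := by
  have hmain := integral_FF_sq ω sh hsh T ε hε h1 h2
  set V := ∑ k ∈ T, vt sh k with hVdef
  have hint : Integrable fun x => (FF ω sh T x - V) ^ 2 := by
    have hmeas : Measurable (FF ω sh T) := by
      unfold FF f
      exact Finset.measurable_sum _ fun k _ => measurable_const.mul
        (Finset.measurable_sum _ fun i _ => measurable_const.indicator (measurableSet_C ω sh k i))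
    have hb : ∀ x, |FF ω sh T x| ≤ ∑ k ∈ T, wt sh k * (2 ^ k) := by
      intro x
      unfold FF
      refine (Finset.abs_sum_le_sum_abs _ _).trans (Finset.sum_le_sum fun k _ => ?_)
      rw [abs_mul, abs_of_nonneg (wt_nonneg sh k), abs_of_nonneg (f_nonneg ω sh k x)]
      apply mul_le_mul_of_nonneg_left _ (wt_nonneg sh k)
      unfold f
      calc ∑ i ∈ B k, (C ω sh k i).indicator (fun _ => (1:ℝ)) x ≤ ∑ i ∈ B k, (1:ℝ) :=
            Finset.sum_le_sum fun i _ => indicator_le_self' (by simp) _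
        _ = 2 ^ k := by
            rw [Finset.sum_const, card_B, nsmul_eq_mul]
            push_cast
            ring
    apply Integrable.of_bound ((hmeas.sub_const V).pow_const 2).aestronglyMeasurable
      ((∑ k ∈ T, wt sh k * (2 ^ k) + V) ^ 2)
    refine Filter.Eventually.of_forall fun x => ?_
    rw [Real.norm_eq_abs, abs_of_nonneg (sq_nonneg _)]
    have h3 := abs_le.1 (hb x)
    apply sq_le_sq'
    · linarith
    · linarith
  have h3 := mul_meas_ge_le_integral_of_nonneg (μ := (volume : Measure (Fin n → I)))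
    (f := fun x => (FF ω sh T x - V) ^ 2) (Filter.Eventually.of_forall fun x => sq_nonneg _)
    hint (V ^ 2)
  have h4 : (volume : Measure (Fin n → I)).real A ≤
      (volume : Measure (Fin n → I)).real {x | V ^ 2 ≤ (FF ω sh T x - V) ^ 2} := by
    apply measureReal_mono _ (measure_ne_top _ _)
    intro x hx
    have h5 : FF ω sh T x = 0 := by
      unfold FF
      apply Finset.sum_eq_zero
      intro k hk
      rw [hA x hx k hk, mul_zero]
    show V ^ 2 ≤ (FF ω sh T x - V) ^ 2
    rw [h5]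
    apply le_of_eq
    ring
  have h5 : V ^ 2 * (volume : Measure (Fin n → I)).real A ≤ ε * V ^ 2 + 5 * V :=
    (mul_le_mul_of_nonneg_left h4 (sq_nonneg V)).trans (h3.trans hmain)
  have h6 : V ^ 2 * (ε + 5 / V) = ε * V ^ 2 + 5 * V := by field_simp
  rw [← h6] at h5
  exact le_of_mul_le_mul_left h5 (by positivity)

/-- **Main deterministic statement.** -/
theorem volume_eq_zero (hω : GoodSeq n ω) (hsh : Monotone sh) (hdiv : ¬ Summable (vt sh))
    (k1 : ℕ) : (volume : Measure (Fin n → I)) {x | ∀ k ≥ k1, f ω sh k x = 0} = 0 := by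
  set A := {x : Fin n → I | ∀ k ≥ k1, f ω sh k x = 0} with hA
  have hreal : (volume : Measure (Fin n → I)).real A ≤ 0 := by
    refine le_of_forall_pos_le_add fun δ hδ => ?_
    rw [zero_add]
    -- the choice of `t`
    obtain ⟨t, ht⟩ := exists_nat_one_div_lt (half_pos hδ)
    obtain ⟨L1, hL1⟩ := eventually_atTop.1 (hω t)
    obtain ⟨L2, hL2⟩ := eventually_atTop.1 (hω 0)
    set k0 := max k1 (max L1 L2) with hk0
    have hdiv' : ¬ Summable fun k => vt sh (k + k0) := by
      rw [summable_nat_add_iff]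
      exact hdiv
    have htend := (not_summable_iff_tendsto_nat_atTop_of_nonneg fun k => vt_nonneg sh (k + k0)).1 hdiv'
    obtain ⟨N, hN⟩ := (htend.eventually_ge_atTop (10 / δ)).exists
    set T := Finset.Ico k0 (k0 + N) with hT
    have hsumT : ∑ k ∈ T, vt sh k = ∑ i ∈ Finset.range N, vt sh (i + k0) := by
      rw [hT, Finset.sum_Ico_eq_sum_range, Nat.add_sub_cancel_left]
      exact Finset.sum_congr rfl fun i _ => by rw [add_comm]
    rw [← hsumT] at hN
    have hVpos : 0 < ∑ k ∈ T, vt sh k := lt_of_lt_of_le (by positivity) hN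
    have h := volume_le_of_zero ω sh hsh T (1 / ((t:ℝ) + 1)) (by positivity)
      (fun k hk l hl hkl hS => (hL1 l (by
        rw [hT, Finset.mem_Ico] at hl
        exact (le_max_left _ _).trans ((le_max_right _ _).trans hl.1)) k hkl.le _ hS).le)
      (fun k hk hS => by
        have h3 := (hL2 k (by
          rw [hT, Finset.mem_Ico] at hk
          exact (le_max_right _ _).trans ((le_max_right _ _).trans hk.1)) k le_rfl _ hS).le
        norm_num at h3 ⊢
        linarith)
      hVpos A
      (fun x hx k hk => hx k (by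
        rw [hT, Finset.mem_Ico] at hk
        exact (le_max_left _ _).trans hk.1))
    have h5 : 5 / ∑ k ∈ T, vt sh k ≤ δ / 2 := by
      rw [div_le_iff₀ hVpos]
      have : δ * (10 / δ) = 10 := by field_simp
      nlinarith
    linarith
  have h0 : (volume : Measure (Fin n → I)).real A = 0 := le_antisymm hreal measureReal_nonneg
  rwa [measureReal_eq_zero_iff] at h0

end

end Q271.RS
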