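import Pool.Agent.Q271.RS.Coll
import Pool.Agent.Q271.RS.Cells

/-!
# Almost every sequence is good for all shapes simultaneously
-/

set_option autoImplicit false

namespace Q271.RS

open MeasureTheory ProbabilityTheory Set Filter unitInterval
open scoped ENNReal NNReal

variable {n : ℕ}

/-- the dyadic block of indices -/
def B (k : ℕ) : Finset ℕ := Finset.Ico (2 ^ k) (2 ^ (k + 1))

lemma card_B (k : ℕ) : (B k).card = 2 ^ k := by
  rw [B, Nat.card_Ico, pow_succ]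
  omega

/-- pairs of indices -/
def E (k l : ℕ) : Finset (ℕ × ℕ) := (B k ×ˢ B l).filter fun e => e.1 < e.2

lemma lt_of_mem_E {k l : ℕ} (e : ℕ × ℕ) (he : e ∈ E k l) : e.1 < e.2 :=
  (Finset.mem_filter.1 he).2

lemma card_E_le (k l : ℕ) : (E k l).card ≤ 2 ^ k * 2 ^ l := by
  refine (Finset.card_filter_le _ _).trans ?_
  rw [Finset.card_product, card_B, card_B]

lemma card_E_ge (k l : ℕ) (hkl : k ≤ l) (hl : 1 ≤ l) : 2 ^ k * 2 ^ l ≤ 4 * (E k l).card := by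
  rcases hkl.lt_or_eq with h | h
  · have h1 : E k l = B k ×ˢ B l := by
      apply Finset.filter_true_of_mem
      intro e he
      rw [Finset.mem_product, B, B, Finset.mem_Ico, Finset.mem_Ico] at he
      have : 2 ^ (k + 1) ≤ 2 ^ l := Nat.pow_le_pow_right (by norm_num) h
      omega
    rw [h1, Finset.card_product, card_B, card_B]
    omega
  · subst h
    obtain ⟨j, rfl⟩ : ∃ j, k = j + 1 := ⟨k - 1, by omega⟩
    have h1 : Finset.Ico (2 ^ (j + 1)) (2 ^ (j + 1) + 2 ^ j) ×ˢ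
        Finset.Ico (2 ^ (j + 1) + 2 ^ j) (2 ^ (j + 1 + 1)) ⊆ E (j + 1) (j + 1) := by
      intro e he
      rw [Finset.mem_product, Finset.mem_Ico, Finset.mem_Ico] at he
      rw [E, Finset.mem_filter, Finset.mem_product, B, Finset.mem_Ico, Finset.mem_Ico]
      have h2 : 2 ^ (j + 1 + 1) = 2 ^ (j + 1) + 2 ^ j + 2 ^ j := by
        rw [pow_succ, pow_succ]; omega
      omega
    have h3 := Finset.card_le_card h1
    rw [Finset.card_product, Nat.card_Ico, Nat.card_Ico] at h3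
    have h2 : 2 ^ (j + 1 + 1) = 2 ^ (j + 1) + 2 ^ j + 2 ^ j := by
      rw [pow_succ, pow_succ]; omega
    rw [h2, Nat.add_sub_cancel_left, Nat.add_sub_cancel_left] at h3
    have h4 : 2 ^ (j + 1) * 2 ^ (j + 1) = 4 * (2 ^ j * 2 ^ j) := by rw [pow_succ]; ring
    rw [h4]
    omega

/-- the relevant shapes of level `k` -/
def S (n k : ℕ) : Finset (Fin n → ℕ) :=
  (Fintype.piFinset fun _ => Finset.range (3 * k + 1)).filter fun a => MM a ≤ (k + 1) ^ 2 * 2 ^ k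

lemma mem_S {k : ℕ} (a : Fin n → ℕ) (h : MM a ≤ (k + 1) ^ 2 * 2 ^ k) : a ∈ S n k := by
  rw [S, Finset.mem_filter, Fintype.mem_piFinset]
  refine ⟨fun i => ?_, h⟩
  rw [Finset.mem_range, Nat.lt_succ_iff]
  have h1 : a i ≤ ∑ j, a j := Finset.single_le_sum (fun _ _ => Nat.zero_le _) (Finset.mem_univ i)
  refine h1.trans ?_
  have h2 : k + 1 ≤ 2 ^ k := Nat.lt_two_pow_self
  have h3 : 2 ^ ∑ j, a j ≤ 2 ^ (3 * k) := by
    calc 2 ^ ∑ j, a j ≤ (k + 1) ^ 2 * 2 ^ k := h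
      _ ≤ (2 ^ k) ^ 2 * 2 ^ k := by gcongr
      _ = 2 ^ (3 * k) := by rw [← pow_mul, ← pow_add]; ring_nf
  exact (Nat.pow_le_pow_iff_right (by norm_num)).1 h3

lemma card_S_le (k : ℕ) : (S n k).card ≤ (3 * k + 1) ^ n := by
  refine (Finset.card_filter_le _ _).trans ?_
  rw [Fintype.card_piFinset]
  simp

/-- too many collisions -/
def Bad (ε : ℝ) (k l : ℕ) (a : Fin n → ℕ) : Set (ℕ → Fin n → I) :=
  {ω | (1 + ε) * ((E k l).card * ((MM a : ℕ) : ℝ)⁻¹) ≤ num (cell a) (E k l) ω}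

/-- the product measure on the sequence space -/
noncomputable def Pr (n : ℕ) : Measure (ℕ → Fin n → I) :=
  Measure.infinitePi fun _ : ℕ => (volume : Measure (Fin n → I))

lemma prob_Bad (ε : ℝ) (hε : 0 < ε) (k l : ℕ) (hkl : k ≤ l) (hl : 1 ≤ l) (a : Fin n → ℕ)
    (ha : a ∈ S n k) : Pr n (Bad ε k l a) ≤ ENNReal.ofReal (4 * (l + 1) ^ 2 / ε ^ 2 * (1 / 2) ^ l) := by
  have hcard := card_E_ge k l hkl hl
  have hpos : 0 < 2 ^ k * 2 ^ l := by positivity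
  have hne : (E k l).Nonempty := by
    rw [← Finset.card_pos]
    omega
  have h := prob_num_ge (volume : Measure (Fin n → I)) (cell a) (measurable_cell a)
    (fun z => by rw [card_cells]; exact volume_cell a z) (E k l) lt_of_mem_E hne ε hε
  rw [card_cells] at h
  refine h.trans (ENNReal.ofReal_le_ofReal ?_)
  have hM : ((MM a : ℕ) : ℝ) ≤ (l + 1) ^ 2 * 2 ^ k := by
    have h1 : MM a ≤ (k + 1) ^ 2 * 2 ^ k := (Finset.mem_filter.1 ha).2
    have h2 : ((MM a : ℕ) : ℝ) ≤ ((k:ℝ) + 1) ^ 2 * 2 ^ k := by exact_mod_cast h1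
    have h3 : (k:ℝ) ≤ l := by exact_mod_cast hkl
    exact h2.trans (by gcongr)
  have hE : (2:ℝ) ^ k * 2 ^ l ≤ 4 * (E k l).card := by exact_mod_cast hcard
  have hE0 : (0:ℝ) < (E k l).card := by exact_mod_cast hne.card_pos
  rw [div_le_iff₀ (by positivity)]
  calc ((MM a : ℕ) : ℝ) ≤ (l + 1) ^ 2 * 2 ^ k := hM
    _ = (l + 1) ^ 2 * (1 / 2) ^ l * (2 ^ k * 2 ^ l) := by
        rw [one_div, inv_pow]
        field_simp
    _ ≤ (l + 1) ^ 2 * (1 / 2) ^ l * (4 * (E k l).card) := by gcongr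
    _ = _ := by field_simp

/-- the union of the bad events of level `l` -/
def BadU (n : ℕ) (ε : ℝ) (l : ℕ) : Set (ℕ → Fin n → I) :=
  ⋃ k ∈ Finset.range (l + 1), ⋃ a ∈ S n k, Bad ε k l a

lemma prob_BadU (ε : ℝ) (hε : 0 < ε) (l : ℕ) (hl : 1 ≤ l) :
    Pr n (BadU n ε l) ≤ ENNReal.ofReal (4 * 4 ^ n * 2 / ε ^ 2 *
      (((l + 1 : ℕ) : ℝ) ^ (n + 3) * (1 / 2) ^ (l + 1))) := by
  have h1 : Pr n (BadU n ε l) ≤ ∑ k ∈ Finset.range (l + 1), ∑ a ∈ S n k,
      ENNReal.ofReal (4 * (l + 1) ^ 2 / ε ^ 2 * (1 / 2) ^ l) := by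
    refine (measure_biUnion_finset_le _ _).trans (Finset.sum_le_sum fun k hk => ?_)
    refine (measure_biUnion_finset_le _ _).trans (Finset.sum_le_sum fun a ha => ?_)
    exact prob_Bad ε hε k l (by rw [Finset.mem_range] at hk; omega) hl a ha
  refine h1.trans ?_
  have h2 : ∀ k ∈ Finset.range (l + 1), ∑ a ∈ S n k,
      ENNReal.ofReal (4 * (l + 1) ^ 2 / ε ^ 2 * (1 / 2) ^ l) ≤
      ENNReal.ofReal ((4 * (l + 1)) ^ n * (4 * (l + 1) ^ 2 / ε ^ 2 * (1 / 2) ^ l)) := by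
    intro k hk
    rw [Finset.sum_const, nsmul_eq_mul, ENNReal.ofReal_mul
      (p := (4 * ((l:ℝ) + 1)) ^ n) (by positivity)]
    refine mul_le_mul' ?_ le_rfl
    have h3 : (S n k).card ≤ (4 * (l + 1)) ^ n := by
      refine (card_S_le k).trans ?_
      rw [Finset.mem_range] at hk
      exact Nat.pow_le_pow_left (by omega) n
    have h4 : ((4 * ((l:ℝ) + 1)) ^ n) = (((4 * (l + 1)) ^ n : ℕ) : ℝ) := by push_cast; rfl
    rw [h4, ENNReal.ofReal_natCast]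
    exact_mod_cast h3
  refine (Finset.sum_le_sum h2).trans ?_
  rw [Finset.sum_const, Finset.card_range, nsmul_eq_mul]
  have h5 : (((l + 1 : ℕ) : ℕ) : ℝ≥0∞) = ENNReal.ofReal ((l:ℝ) + 1) := by
    rw [← ENNReal.ofReal_natCast]
    push_cast
    rfl
  rw [h5, ← ENNReal.ofReal_mul (by positivity)]
  apply ENNReal.ofReal_le_ofReal
  apply le_of_eq
  rw [mul_pow, pow_add, pow_succ (1 / 2 : ℝ)]
  push_cast
  ring

/-- the good sequences -/
def GoodSeq (n : ℕ) (ω : ℕ → Fin n → I) : Prop :=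
  ∀ t : ℕ, ∀ᶠ l in atTop, ∀ k ≤ l, ∀ a ∈ S n k,
    num (cell a) (E k l) ω < (1 + 1 / ((t:ℝ) + 1)) * ((E k l).card * ((MM a : ℕ) : ℝ)⁻¹)

theorem ae_good (n : ℕ) : ∀ᵐ ω ∂(Pr n), GoodSeq n ω := by
  unfold GoodSeq
  rw [ae_all_iff]
  intro t
  set ε : ℝ := 1 / ((t:ℝ) + 1) with hε
  have hε0 : 0 < ε := by rw [hε]; positivity
  have hsum : ∑' l, Pr n (BadU n ε (l + 1)) ≠ ∞ := by
    have hs : Summable fun l : ℕ => 4 * 4 ^ n * 2 / ε ^ 2 *
        (((l + 1 + 1 : ℕ) : ℝ) ^ (n + 3) * (1 / 2) ^ (l + 1 + 1)) := by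
      apply Summable.mul_left
      exact (summable_nat_add_iff (f := fun l : ℕ => (l:ℝ) ^ (n + 3) * (1 / 2) ^ l) 2).2
        (summable_pow_mul_geometric_of_norm_lt_one (n + 3) (by norm_num))
    apply ne_top_of_le_ne_top _ (ENNReal.tsum_le_tsum fun l => prob_BadU ε hε0 (l + 1) (by omega))
    rw [← ENNReal.ofReal_tsum_of_nonneg (fun l => by positivity) hs]
    exact ENNReal.ofReal_ne_top
  have h := ae_eventually_notMem hsum
  filter_upwards [h] with ω hω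
  have h2 : ∀ᶠ l in atTop, ω ∉ BadU n ε l := by
    rw [eventually_atTop] at hω ⊢
    obtain ⟨L, hL⟩ := hω
    refine ⟨L + 1, fun l hl => ?_⟩
    obtain ⟨j, rfl⟩ : ∃ j, l = j + 1 := ⟨l - 1, by omega⟩
    exact hL j (by omega)
  filter_upwards [h2] with l hl k hk a ha
  by_contra hcon
  push Not at hcon
  apply hl
  rw [BadU, mem_iUnion₂]
  refine ⟨k, by rw [Finset.mem_range]; omega, ?_⟩
  rw [mem_iUnion₂]
  exact ⟨a, ha, hcon⟩

end Q271.RS
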