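import Pool.Agent.Q271.RS.Det

/-!
# The weighted Khintchine law for random sequences
-/

set_option autoImplicit false

namespace Q271.RS

open MeasureTheory ProbabilityTheory Set Filter unitInterval Topology
open scoped ENNReal NNReal

variable {n : ℕ}

/-- The set `W_ω(Ψ)` of all points `x` of the unit cube with `|x i - ω j i| < ψ i j` for all `i`,
for infinitely many `j`. -/
def W (ω : ℕ → Fin n → I) (ψ : Fin n → ℕ → ℝ) : Set (Fin n → I) :=
  {x | {j : ℕ | ∀ i, |(x i : ℝ) - (ω j i : ℝ)| < ψ i j}.Infinite}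

lemma exists_exp (y : ℝ) (hy : 0 < y) : ∃ a : ℕ, ((2:ℝ) ^ a)⁻¹ < y := by
  obtain ⟨a, ha⟩ := exists_pow_lt_of_lt_one hy (show (1 / 2 : ℝ) < 1 by norm_num)
  refine ⟨a, ?_⟩
  rwa [one_div, inv_pow] at ha

theorem volume_W (ω : ℕ → Fin n → I) (hω : GoodSeq n ω) (ψ : Fin n → ℕ → ℝ)
    (hanti : ∀ i, Antitone (ψ i)) (hpos : ∀ i j, 0 < ψ i j)
    (hdiv : ¬ Summable fun j => ∏ i, ψ i j) : volume (W ω ψ) = 1 := by
  classical
  have hex : ∀ (k : ℕ) (i : Fin n), ∃ a : ℕ, ((2:ℝ) ^ a)⁻¹ < ψ i (2 ^ (k + 1)) := fun k i =>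
    exists_exp _ (hpos i _)
  set sh : ℕ → Fin n → ℕ := fun k i => Nat.find (hex k i) with hsh
  have hsh1 : ∀ k i, ((2:ℝ) ^ (sh k i))⁻¹ < ψ i (2 ^ (k + 1)) := fun k i => Nat.find_spec (hex k i)
  have hmono : Monotone sh := by
    intro k l hkl i
    apply Nat.find_min' (hex k i)
    refine (hsh1 l i).trans_le ?_
    exact hanti i (Nat.pow_le_pow_right (by norm_num) (by omega))
  -- lower bound for the side lengths
  set C : Fin n → ℝ := fun i => max 2 (ψ i 0) with hC
  have hC2 : ∀ i, 2 ≤ C i := fun i => le_max_left _ _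
  have hlow : ∀ k i, ψ i (2 ^ (k + 1)) / C i ≤ ((2:ℝ) ^ (sh k i))⁻¹ := by
    intro k i
    have hC0 : 0 < C i := by linarith [hC2 i]
    rw [div_le_iff₀ hC0]
    rcases Nat.eq_zero_or_pos (sh k i) with h0 | h0
    · rw [h0, pow_zero, inv_one, one_mul]
      exact (hanti i (Nat.zero_le _)).trans (le_max_right _ _)
    · obtain ⟨a, ha⟩ : ∃ a, sh k i = a + 1 := ⟨sh k i - 1, by omega⟩
      have h1 : ¬ ((2:ℝ) ^ a)⁻¹ < ψ i (2 ^ (k + 1)) := Nat.find_min (hex k i) (by
        show a < sh k i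
        omega)
      push Not at h1
      rw [ha, pow_succ]
      calc ψ i (2 ^ (k + 1)) ≤ ((2:ℝ) ^ a)⁻¹ := h1
        _ = ((2:ℝ) ^ a * 2)⁻¹ * 2 := by field_simp
        _ ≤ ((2:ℝ) ^ a * 2)⁻¹ * C i := mul_le_mul_of_nonneg_left (hC2 i) (by positivity)
  -- the products
  set g : ℕ → ℝ := fun j => ∏ i, ψ i j with hg
  have hg0 : ∀ j, 0 ≤ g j := fun j => Finset.prod_nonneg fun i _ => (hpos i j).le
  have hganti : ∀ ⦃a b : ℕ⦄, 0 < a → a ≤ b → g b ≤ g a := by
    intro a b _ hab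
    exact Finset.prod_le_prod (fun i _ => (hpos i b).le) fun i _ => hanti i hab
  have hdiv2 : ¬ Summable fun k : ℕ => (2:ℝ) ^ k * g (2 ^ (k + 1)) := by
    intro h
    apply hdiv
    rw [← summable_condensed_iff_of_nonneg hg0 hganti, ← summable_nat_add_iff 1]
    have h2 := h.mul_left 2
    refine h2.congr fun k => ?_
    rw [pow_succ]
    ring
  set P : ℝ := ∏ i, C i with hP
  have hP0 : 0 < P := Finset.prod_pos fun i _ => by linarith [hC2 i]
  have hmk : ∀ k, (2:ℝ) ^ k * g (2 ^ (k + 1)) ≤ P * mk sh k := by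
    intro k
    have h1 : g (2 ^ (k + 1)) / P ≤ ((MM (sh k) : ℕ) : ℝ)⁻¹ := by
      have e : ((MM (sh k) : ℕ) : ℝ)⁻¹ = ∏ i, ((2:ℝ) ^ (sh k i))⁻¹ := by
        rw [Finset.prod_inv_distrib, MM, Finset.prod_pow_eq_pow_sum]
        push_cast
        rfl
      rw [e, hg, hP, ← Finset.prod_div_distrib]
      refine Finset.prod_le_prod (fun i _ => ?_) fun i _ => hlow k i
      have := hC2 i
      have := hpos i (2 ^ (k + 1))
      positivity
    rw [div_le_iff₀ hP0] at h1
    unfold mk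
    calc (2:ℝ) ^ k * g (2 ^ (k + 1)) ≤ 2 ^ k * (((MM (sh k) : ℕ) : ℝ)⁻¹ * P) := by gcongr
      _ = _ := by ring
  have hmkdiv : ¬ Summable (mk sh) := by
    intro h
    apply hdiv2
    exact Summable.of_nonneg_of_le (fun k => mul_nonneg (by positivity) (hg0 _)) hmk (h.mul_left P)
  have hvt : ¬ Summable (vt sh) := by
    intro h
    apply hmkdiv
    have h1 : ∀ᶠ k in atTop, vt sh k < 1 := h.tendsto_atTop_zero.eventually_lt_const one_pos
    have h2 : Summable fun k : ℕ => vt sh k + 1 / ((k + 1 : ℕ) : ℝ) ^ 2 := by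
      apply h.add
      exact (summable_nat_add_iff 1).2 (Real.summable_one_div_nat_pow.2 one_lt_two)
    refine Summable.of_norm_bounded_eventually_nat h2 ?_
    filter_upwards [h1] with k hk
    rw [Real.norm_eq_abs, abs_of_pos (mk_pos sh k)]
    by_cases hS : sh k ∈ S n k
    · have e : vt sh k = min 1 (mk sh k) := by unfold vt; rw [if_pos hS]
      have h3 : mk sh k = vt sh k := by
        rw [e] at hk ⊢
        rcases min_cases 1 (mk sh k) with ⟨h4, -⟩ | ⟨h4, -⟩
        · rw [h4] at hk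
          exact absurd hk (lt_irrefl _)
        · exact h4.symm
      rw [← h3]
      have : (0:ℝ) ≤ 1 / ((k + 1 : ℕ) : ℝ) ^ 2 := by positivity
      linarith
    · have h3 : (k + 1) ^ 2 * 2 ^ k < MM (sh k) := by
        by_contra hcon
        push Not at hcon
        exact hS (mem_S _ hcon)
      have h4 : ((k + 1 : ℕ) : ℝ) ^ 2 * 2 ^ k < ((MM (sh k) : ℕ) : ℝ) := by exact_mod_cast h3
      have h5 : mk sh k ≤ 1 / ((k + 1 : ℕ) : ℝ) ^ 2 := by
        unfold mk
        have hMpos : (0:ℝ) < ((MM (sh k) : ℕ) : ℝ) := by exact_mod_cast MM_pos _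
        rw [← div_eq_mul_inv, div_le_div_iff₀ hMpos (by positivity)]
        linarith
      have := vt_nonneg sh k
      linarith
  -- the complement
  have hcompl : volume (W ω ψ)ᶜ = 0 := by
    have hsub : (W ω ψ)ᶜ ⊆ ⋃ k1 : ℕ, {x | ∀ k ≥ k1, f ω sh k x = 0} := by
      intro x hx
      have hfin : {j : ℕ | ∀ i, |(x i : ℝ) - (ω j i : ℝ)| < ψ i j}.Finite := by
        by_contra h
        exact hx h
      obtain ⟨J, hJ⟩ := hfin.bddAbove
      rw [mem_iUnion]
      refine ⟨J + 1, fun k hk => ?_⟩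
      unfold f
      apply Finset.sum_eq_zero
      intro j hj
      rw [B, Finset.mem_Ico] at hj
      rw [indicator_of_notMem]
      intro hxC
      have h1 : cell (sh k) x = cell (sh k) (ω j) := hxC
      have h2 : j ≤ J := by
        apply hJ
        intro i
        refine (cell1_dist _ _ _ (congrFun h1 i)).trans_lt ((hsh1 k i).trans_le ?_)
        exact hanti i hj.2.le
      have h3 : k < 2 ^ k := Nat.lt_two_pow_self
      omega
    refine measure_mono_null hsub ?_
    rw [measure_iUnion_null_iff]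
    intro k1
    exact volume_eq_zero ω sh hω hmono hvt k1
  apply le_antisymm prob_le_one
  calc (1:ℝ≥0∞) = volume (univ : Set (Fin n → I)) := measure_univ.symm
    _ = volume (W ω ψ ∪ (W ω ψ)ᶜ) := by rw [union_compl_self]
    _ ≤ volume (W ω ψ) + volume (W ω ψ)ᶜ := measure_union_le _ _
    _ = volume (W ω ψ) := by rw [hcompl, add_zero]

end Q271.RS
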